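import Pool.Agent.V5helper50.SP.Stm

/-!
# Project SP, job SPH: from classes to spheres
-/

set_option autoImplicit false

open Finset

namespace Pool.Agent.V5helper60.SP

open Pool.Agent.V5helper50.SP
open Pool.Agent.V5helper51.MT (a)

theorem a_cast (k q : ℕ) (α : Fin (k - 1) → ℝ) (x : ℕ) :
    ((a k q α x : ℤ) : ZMod q) = (x : ZMod q) ^ k := by
  unfold a
  push_cast
  rw [ZMod.natCast_self, zero_mul, add_zero]

theorem sum_cast {k q d : ℕ} {α : Fin (k - 1) → ℝ} {x : Fin d → ℕ} {u : ℕ}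
    (h : ∑ i, a k q α (x i) = (u : ℤ)) : ∑ i, (x i : ZMod q) ^ k = (u : ZMod q) := by
  have h1 := congrArg (fun z : ℤ => (z : ZMod q)) h
  simp only [Int.cast_sum, Int.cast_natCast] at h1
  rw [← h1]
  exact Finset.sum_congr rfl fun i _ => (a_cast k q α (x i)).symm

/-- the natural solutions by classes -/
theorem nat_card {k q d : ℕ} [NeZero q] (α : Fin (k - 1) → ℝ) (u : ℕ)
    (hfin : ∀ (ρ : Fin d → ℕ) (n : ℤ),
      {x : Fin d → ℕ | (∀ i, x i % q = ρ i % q) ∧ ∑ i, a k q α (x i) = n}.Finite) :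
    {x : Fin d → ℕ | ∑ i, a k q α (x i) = (u : ℤ)}.Finite ∧
    {x : Fin d → ℕ | ∑ i, a k q α (x i) = (u : ℤ)}.ncard =
      ∑ ρ ∈ univ.filter (fun x : Fin d → ZMod q => ∑ i, x i ^ k = (u : ZMod q)),
        R k q d α (fun i => (ρ i).val) u := by
  classical
  set A : (Fin d → ZMod q) → Finset (Fin d → ℕ) := fun ρ => (hfin (fun i => (ρ i).val) u).toFinset
    with hA
  have hmem : ∀ ρ x, x ∈ A ρ ↔ (∀ i, x i % q = (ρ i).val % q) ∧ ∑ i, a k q α (x i) = (u : ℤ) := by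
    intro ρ x
    rw [hA]
    simp only [Set.Finite.mem_toFinset, Set.mem_ofPred_eq]
  have hset : {x : Fin d → ℕ | ∑ i, a k q α (x i) = (u : ℤ)} =
      ((univ.filter (fun x : Fin d → ZMod q => ∑ i, x i ^ k = (u : ZMod q))).biUnion A :
        Finset (Fin d → ℕ)) := by
    ext x
    rw [Set.mem_ofPred_eq, Finset.mem_coe, Finset.mem_biUnion]
    constructor
    · intro hx
      refine ⟨fun i => (x i : ZMod q), ?_, (hmem _ _).2 ⟨fun i => ?_, hx⟩⟩
      · rw [Finset.mem_filter]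
        exact ⟨Finset.mem_univ _, sum_cast hx⟩
      · rw [ZMod.val_natCast, Nat.mod_mod]
    · rintro ⟨ρ, -, h⟩
      exact ((hmem _ _).1 h).2
  rw [hset]
  refine ⟨Finset.finite_toSet _, ?_⟩
  rw [Set.ncard_coe_finset, Finset.card_biUnion]
  · refine Finset.sum_congr rfl fun ρ _ => ?_
    unfold R
    exact (Set.ncard_eq_toFinset_card _ (hfin (fun i => (ρ i).val) u)).symm
  · intro ρ _ ρ' _ hne
    show Disjoint (A ρ) (A ρ')
    rw [Finset.disjoint_left]
    intro x h1 h2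
    apply hne
    funext i
    have h3 := ((hmem _ _).1 h1).1 i
    have h4 := ((hmem _ _).1 h2).1 i
    rw [h3, Nat.mod_eq_of_lt (ZMod.val_lt _), Nat.mod_eq_of_lt (ZMod.val_lt _)] at h4
    exact ZMod.val_injective q h4

/-- the sphere and the natural solutions -/
theorem sphere_card {k q d : ℕ} (α : Fin (k - 1) → ℝ) (u : ℕ)
    (hN : {x : Fin d → ℕ | ∑ i, a k q α (x i) = (u : ℤ)}.Finite) :
    {x : Fin d → ℕ | ∑ i, a k q α (x i) = (u : ℤ)}.ncard ≤ (sphere k q d α u).ncard ∧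
    (sphere k q d α u).ncard ≤ {x : Fin d → ℕ | ∑ i, a k q α (x i) = (u : ℤ)}.ncard * 2 ^ d := by
  classical
  set N := {x : Fin d → ℕ | ∑ i, a k q α (x i) = (u : ℤ)} with hNdef
  set f : (Fin d → ℕ) × (Fin d → Bool) → (Fin d → ℤ) := fun z i =>
    if z.2 i then (z.1 i : ℤ) else -(z.1 i : ℤ) with hf
  have hsub : sphere k q d α u ⊆ f '' (N ×ˢ (Set.univ : Set (Fin d → Bool))) := by
    intro m hm
    refine ⟨(fun i => (m i).natAbs, fun i => decide (0 ≤ m i)), ⟨hm, Set.mem_univ _⟩, ?_⟩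
    funext i
    rw [hf]
    simp only [decide_eq_true_eq]
    split_ifs with h
    · omega
    · omega
  have hfinp : (N ×ˢ (Set.univ : Set (Fin d → Bool))).Finite := hN.prod Set.finite_univ
  have hSf : (sphere k q d α u).Finite := (hfinp.image f).subset hsub
  refine ⟨?_, ?_⟩
  · have hinj : Function.Injective (fun (x : Fin d → ℕ) (i : Fin d) => (x i : ℤ)) := by
      intro x y h
      funext i
      have h1 : (x i : ℤ) = (y i : ℤ) := congrFun h i
      exact_mod_cast h1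
    rw [← Set.ncard_image_of_injective N hinj]
    refine Set.ncard_le_ncard ?_ hSf
    rintro _ ⟨x, hx, rfl⟩
    show ∑ i, a k q α ((x i : ℤ)).natAbs = (u : ℤ)
    simp only [Int.natAbs_natCast]
    exact hx
  · refine (Set.ncard_le_ncard hsub (hfinp.image f)).trans ((Set.ncard_image_le hfinp).trans ?_)
    rw [Set.ncard_prod, Set.ncard_univ]
    simp

theorem t_SPH (hG : S_GRW) : S_SPH := by
  classical
  intro k d hk hd c C hc hC q α hq hT
  have : NeZero q := ⟨by omega⟩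
  obtain ⟨-, -, hfin, -⟩ := hG k q hk hq α
  choose n₀ hn₀ using fun ρ : Fin d → ZMod q => hT (fun i => (ρ i).val)
  refine ⟨∑ ρ, n₀ ρ, fun u hu => ?_⟩
  obtain ⟨hNf, hN⟩ := nat_card α u (hfin d)
  obtain ⟨h1, h2⟩ := sphere_card α u hNf
  rw [hN] at h1 h2
  set Z := univ.filter (fun x : Fin d → ZMod q => ∑ i, x i ^ k = (u : ZMod q)) with hZ
  have hcard : Nat.card {x : Fin d → ZMod q // ∑ i, x i ^ k = (u : ZMod q)} = Z.card := by
    rw [Nat.card_eq_fintype_card, Fintype.card_subtype]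
  rw [hcard]
  set E : ℝ := (u : ℝ) ^ ((d : ℝ) / k - 1) with hE
  have hle : ∀ ρ, n₀ ρ ≤ u := fun ρ =>
    (Finset.single_le_sum (f := n₀) (fun _ _ => Nat.zero_le _) (Finset.mem_univ ρ)).trans hu
  have hup : ((∑ ρ ∈ Z, R k q d α (fun i => (ρ i).val) u : ℕ) : ℝ) ≤
      Z.card * (C / (q : ℝ) ^ (d - 1) * E) := by
    rw [Nat.cast_sum, ← nsmul_eq_mul, ← Finset.sum_const]
    exact Finset.sum_le_sum fun ρ _ => (hn₀ ρ u (hle ρ)).1
  have hlo : (Z.card : ℝ) * (c / (q : ℝ) ^ (d - 1) * E) ≤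
      ((∑ ρ ∈ Z, R k q d α (fun i => (ρ i).val) u : ℕ) : ℝ) := by
    rw [Nat.cast_sum, ← nsmul_eq_mul, ← Finset.sum_const]
    refine Finset.sum_le_sum fun ρ hρ => (hn₀ ρ u (hle ρ)).2 ?_
    rw [hZ, Finset.mem_filter] at hρ
    rw [← ZMod.intCast_zmod_eq_zero_iff_dvd]
    push_cast
    simp only [ZMod.natCast_val, ZMod.cast_id', id_eq]
    rw [hρ.2, sub_self]
  constructor
  · calc c * ((Z.card : ℝ) / (q : ℝ) ^ (d - 1)) * E = (Z.card : ℝ) * (c / (q : ℝ) ^ (d - 1) * E) := by ring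
      _ ≤ ((∑ ρ ∈ Z, R k q d α (fun i => (ρ i).val) u : ℕ) : ℝ) := hlo
      _ ≤ (sphere k q d α u).ncard := by exact_mod_cast h1
  · calc ((sphere k q d α u).ncard : ℝ)
        ≤ ((∑ ρ ∈ Z, R k q d α (fun i => (ρ i).val) u : ℕ) : ℝ) * 2 ^ d := by exact_mod_cast h2
      _ ≤ (Z.card * (C / (q : ℝ) ^ (d - 1) * E)) * 2 ^ d :=
          mul_le_mul_of_nonneg_right hup (by positivity)
      _ = 2 ^ d * C * ((Z.card : ℝ) / (q : ℝ) ^ (d - 1)) * E := by ring

end Pool.Agent.V5helper60.SP
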